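import Mathlib

/-! The Fischer inner product on polynomials and the permanent of a Gram matrix. -/

set_option autoImplicit false
set_option linter.unusedSectionVars false

namespace Pool.Agent.MP_7742c6_al.H40

open MvPolynomial Finset
open scoped ComplexConjugate

section Laplace

theorem perm_succ_column_zero {R : Type*} [CommSemiring R] {n : ℕ}
    (A : Matrix (Fin n.succ) (Fin n.succ) R) :
    A.permanent = ∑ i : Fin n.succ, A i 0 * (A.submatrix i.succAbove Fin.succ).permanent := by
  rw [Matrix.permanent, Finset.univ_perm_fin_succ, ← Finset.univ_product_univ]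
  simp only [Finset.sum_map, Equiv.toEmbedding_apply, Finset.sum_product]
  refine Finset.sum_congr rfl fun i _ => Fin.cases ?_ (fun i => ?_) i
  · simp only [Fin.prod_univ_succ, Matrix.permanent, Finset.mul_sum,
      Equiv.Perm.decomposeFin_symm_apply_zero, Equiv.swap_self,
      Equiv.Perm.decomposeFin_symm_apply_succ, Fin.succAbove_zero, Equiv.coe_refl, id,
      Matrix.submatrix_apply]
  rw [← Matrix.permanent_permute_cols i.cycleRange, Matrix.permanent, Finset.mul_sum]
  refine Finset.sum_congr rfl fun σ _ => ?_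
  simp only [Fin.prod_univ_succ, Fin.succAbove_cycleRange, Matrix.submatrix_apply, id,
    Equiv.Perm.decomposeFin_symm_apply_zero, Equiv.Perm.decomposeFin_symm_apply_succ]

theorem perm_succ_row_zero {R : Type*} [CommSemiring R] {n : ℕ}
    (A : Matrix (Fin n.succ) (Fin n.succ) R) :
    A.permanent = ∑ j : Fin n.succ, A 0 j * (A.submatrix Fin.succ j.succAbove).permanent := by
  rw [← Matrix.permanent_transpose A, perm_succ_column_zero]
  refine Finset.sum_congr rfl fun i _ => ?_
  rw [← Matrix.permanent_transpose]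
  simp only [Matrix.transpose_apply, Matrix.transpose_submatrix, Matrix.transpose_transpose]

end Laplace

variable {σ : Type*} [Fintype σ] [DecidableEq σ]

/-- The weight of a monomial: the product of the factorials of the exponents. -/
noncomputable def fw (α : σ →₀ ℕ) : ℝ := ∏ i, ((α i).factorial : ℝ)

theorem fw_nonneg (α : σ →₀ ℕ) : 0 ≤ fw α := by
  unfold fw; positivity

theorem fw_zero : fw (0 : σ →₀ ℕ) = 1 := by simp [fw]

theorem fw_single_add (i : σ) (α : σ →₀ ℕ) :
    fw (Finsupp.single i 1 + α) = (α i + 1) * fw α := by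
  unfold fw
  rw [← Finset.mul_prod_erase univ _ (mem_univ i), ← Finset.mul_prod_erase univ
    (fun j => ((α j).factorial : ℝ)) (mem_univ i), ← mul_assoc]
  congr 1
  · simp [add_comm 1 (α i), Nat.factorial_succ]
  · refine Finset.prod_congr rfl fun j hj => ?_
    have : j ≠ i := (mem_erase.mp hj).1
    simp [this.symm]

/-- The Fischer inner product. -/
noncomputable def ip (P R : MvPolynomial σ ℂ) : ℂ :=
  ∑ α ∈ P.support, conj (coeff α P) * coeff α R * (fw α : ℂ)

theorem ip_eq_sum {P R : MvPolynomial σ ℂ} {s : Finset (σ →₀ ℕ)} (h : P.support ⊆ s) :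
    ip P R = ∑ α ∈ s, conj (coeff α P) * coeff α R * (fw α : ℂ) := by
  unfold ip
  refine Finset.sum_subset h fun α _ hα => ?_
  rw [notMem_support_iff.mp hα]; simp

theorem ip_add_left (P P' R : MvPolynomial σ ℂ) : ip (P + P') R = ip P R + ip P' R := by
  rw [ip_eq_sum (s := P.support ∪ P'.support) support_add,
    ip_eq_sum (P := P) (s := P.support ∪ P'.support) subset_union_left,
    ip_eq_sum (P := P') (s := P.support ∪ P'.support) subset_union_right, ← Finset.sum_add_distrib]
  refine Finset.sum_congr rfl fun α _ => ?_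
  simp only [coeff_add, map_add]; ring

theorem ip_add_right (P R R' : MvPolynomial σ ℂ) : ip P (R + R') = ip P R + ip P R' := by
  unfold ip
  rw [← Finset.sum_add_distrib]
  refine Finset.sum_congr rfl fun α _ => ?_
  simp only [coeff_add]; ring

theorem ip_C_mul_left (c : ℂ) (P R : MvPolynomial σ ℂ) : ip (C c * P) R = conj c * ip P R := by
  rw [ip_eq_sum (s := P.support) (by rw [C_mul']; exact support_smul)]
  unfold ip
  rw [Finset.mul_sum]
  refine Finset.sum_congr rfl fun α _ => ?_
  simp only [coeff_C_mul, map_mul]; ring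

theorem ip_C_mul_right (c : ℂ) (P R : MvPolynomial σ ℂ) : ip P (C c * R) = c * ip P R := by
  unfold ip
  rw [Finset.mul_sum]
  refine Finset.sum_congr rfl fun α _ => ?_
  simp only [coeff_C_mul]; ring

theorem ip_zero_left (R : MvPolynomial σ ℂ) : ip 0 R = 0 := by simp [ip]

theorem ip_zero_right (P : MvPolynomial σ ℂ) : ip P 0 = 0 := by simp [ip]

theorem ip_sum_left {ι : Type*} (s : Finset ι) (f : ι → MvPolynomial σ ℂ)
    (R : MvPolynomial σ ℂ) : ip (∑ i ∈ s, f i) R = ∑ i ∈ s, ip (f i) R := by
  classical
  induction s using Finset.induction_on with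
  | empty => simp [ip_zero_left]
  | insert a s ha ih => rw [Finset.sum_insert ha, Finset.sum_insert ha, ip_add_left, ih]

theorem ip_sum_right {ι : Type*} (s : Finset ι) (f : ι → MvPolynomial σ ℂ)
    (P : MvPolynomial σ ℂ) : ip P (∑ i ∈ s, f i) = ∑ i ∈ s, ip P (f i) := by
  classical
  induction s using Finset.induction_on with
  | empty => simp [ip_zero_right]
  | insert a s ha ih => rw [Finset.sum_insert ha, Finset.sum_insert ha, ip_add_right, ih]

theorem ip_X_mul (i : σ) (P R : MvPolynomial σ ℂ) : ip (X i * P) R = ip P (pderiv i R) := by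
  unfold ip
  rw [support_X_mul, Finset.sum_map]
  refine Finset.sum_congr rfl fun α _ => ?_
  simp only [addLeftEmbedding_apply, coeff_X_mul, coeff_pderiv, fw_single_add]
  rw [add_comm α]
  push_cast
  ring

theorem ip_one_one : ip (1 : MvPolynomial σ ℂ) 1 = 1 := by
  rw [ip_eq_sum (s := {0}) (by rw [← C_1]; exact support_monomial_subset)]
  simp [fw_zero]

/-- The linear form with coefficient vector `v`. -/
noncomputable def lin (v : σ → ℂ) : MvPolynomial σ ℂ := ∑ s, C (v s) * X s

/-- The Hermitian product of coordinate vectors. -/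
noncomputable def dot (v w : σ → ℂ) : ℂ := ∑ s, conj (v s) * w s

theorem pderiv_lin (s : σ) (w : σ → ℂ) : pderiv s (lin w) = C (w s) := by
  unfold lin
  rw [map_sum, Finset.sum_eq_single s]
  · simp
  · intro t _ ht
    simp [pderiv_X_of_ne ht]
  · simp

theorem pderiv_prod (s : σ) {n : ℕ} (f : Fin (n + 1) → MvPolynomial σ ℂ) :
    pderiv s (∏ j, f j) = ∑ j, pderiv s (f j) * ∏ k : Fin n, f (j.succAbove k) := by
  induction n with
  | zero => simp
  | succ n ih =>
    rw [Fin.prod_univ_succ, pderiv_mul, ih, Fin.sum_univ_succ (n := n + 1), Finset.mul_sum]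
    congr 1
    refine Finset.sum_congr rfl fun j _ => ?_
    rw [Fin.prod_univ_succ]
    simp only [Fin.succ_succAbove_zero, Fin.succ_succAbove_succ]
    ring

theorem ip_lin_mul_prod (v : σ → ℂ) (P : MvPolynomial σ ℂ) {n : ℕ} (W : Fin (n + 1) → σ → ℂ) :
    ip (lin v * P) (∏ j, lin (W j)) =
      ∑ j, dot v (W j) * ip P (∏ k : Fin n, lin (W (j.succAbove k))) := by
  conv_lhs => rw [lin, Finset.sum_mul, ip_sum_left]
  simp only [mul_assoc, ip_C_mul_left, ip_X_mul, pderiv_prod, pderiv_lin, ip_sum_right,
    ip_C_mul_right, dot, Finset.sum_mul, Finset.mul_sum]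
  rw [Finset.sum_comm]

theorem permanent_gram {n : ℕ} (V W : Fin n → σ → ℂ) :
    (Matrix.of fun i j => dot (V i) (W j)).permanent = ip (∏ i, lin (V i)) (∏ j, lin (W j)) := by
  induction n with
  | zero => rw [Matrix.permanent_isEmpty]; simp [ip_one_one]
  | succ n ih =>
    rw [perm_succ_row_zero, Fin.prod_univ_succ (fun i => lin (V i)), ip_lin_mul_prod]
    refine Finset.sum_congr rfl fun j _ => ?_
    rw [← ih]
    rfl

end Pool.Agent.MP_7742c6_al.H40
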