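import Pool.Agent.MP_7742c6_al.H40.Fischer

/-! A discrete Hardy type inequality for multiplication by `a x^2 - b y^2`. -/

set_option autoImplicit false
set_option linter.unusedSectionVars false

namespace Pool.Agent.MP_7742c6_al.H40

open MvPolynomial Finset
open scoped ComplexConjugate

/-- The diagonal term. -/
noncomputable def fdiag (a b j k : ℝ) : ℝ :=
  (a * (j + 1) - b * (k + 1)) * (a * (j + 1) - b * (k + 1) + (a - b))

/-- The defect of the diagonal term. -/
noncomputable def dfc (a b j k : ℝ) : ℝ := max 0 (-fdiag a b j k)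

theorem dfc_nonneg (a b j k : ℝ) : 0 ≤ dfc a b j k := le_max_left _ _

theorem dfc_le_quarter (a b j k : ℝ) : 4 * dfc a b j k ≤ (a - b) ^ 2 := by
  unfold dfc fdiag
  rcases le_total 0 (-((a * (j + 1) - b * (k + 1)) * (a * (j + 1) - b * (k + 1) + (a - b)))) with
    h | h
  · rw [max_eq_right h]
    nlinarith [sq_nonneg (2 * (a * (j + 1) - b * (k + 1)) + (a - b))]
  · rw [max_eq_left h]; nlinarith [sq_nonneg (a - b)]

theorem bad_range {a b j k : ℝ} (hab : b ≤ a) (h : 0 < dfc a b j k) :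
    a * (j + 1) - b * (k + 1) < 0 ∧ 0 < a * (j + 1) - b * (k + 1) + (a - b) := by
  have h' : fdiag a b j k < 0 := by
    unfold dfc at h
    rcases lt_max_iff.mp h with h | h
    · exact absurd h (lt_irrefl _)
    · linarith
  unfold fdiag at h'
  set t := a * (j + 1) - b * (k + 1)
  constructor
  · by_contra hc
    push Not at hc
    have : 0 ≤ t * (t + (a - b)) := mul_nonneg hc (by linarith)
    linarith
  · by_contra hc
    push Not at hc
    have : 0 ≤ t * (t + (a - b)) := mul_nonneg_of_nonpos_of_nonpos (by linarith) hc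
    linarith

theorem four_dfc_le {a b j k : ℝ} (hb : 0 ≤ b) (hab : b ≤ a) (hj : 0 ≤ j) (hk : 0 ≤ k) :
    4 * dfc a b j k ≤ a * b * (j + 1) * k := by
  have ha : 0 ≤ a := hb.trans hab
  rcases (dfc_nonneg a b j k).eq_or_lt with h | h
  · rw [← h]; simp only [mul_zero]; positivity
  · obtain ⟨h1, -⟩ := bad_range hab h
    have h2 := dfc_le_quarter a b j k
    have h3 : a - b ≤ b * k := by nlinarith [mul_nonneg ha hj]
    have h4 : (a - b) ^ 2 ≤ a * (b * k) := by nlinarith
    have h5 : a * (b * k) ≤ a * b * (j + 1) * k := by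
      have : 0 ≤ a * b * j * k := by positivity
      nlinarith
    linarith

theorem prod_cond {a b j k : ℝ} (hb : 0 ≤ b) (hab : b ≤ a) (hj : 0 ≤ j) (hk : 0 ≤ k) :
    (a * b * (j + 1) * k) * (a * b * (j + 2) * (k - 1)) ≤
      (a * b * (j + 1) * k - dfc a b j k) * (a * b * (j + 2) * (k - 1) + 3 * dfc a b j k) := by
  have ha : 0 ≤ a := hb.trans hab
  have h0 := dfc_nonneg a b j k
  have h1 := four_dfc_le hb hab hj hk
  have hab0 : 0 ≤ a * b := mul_nonneg ha hb
  have h2 : a * b * (j + 2) * (k - 1) ≤ 2 * (a * b * (j + 1) * k) := by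
    have : (j + 2) * (k - 1) ≤ 2 * ((j + 1) * k) := by nlinarith [mul_nonneg hj hk]
    nlinarith [mul_le_mul_of_nonneg_left this hab0]
  set d := dfc a b j k
  set A := a * b * (j + 1) * k
  set B := a * b * (j + 2) * (k - 1)
  nlinarith [mul_le_mul_of_nonneg_left h2 h0, mul_nonneg h0 (by linarith : 0 ≤ A - 3 * d)]

theorem diag_cond {a b j k : ℝ} (hb : 0 ≤ b) (hab : b ≤ a) :
    3 * dfc a b (j - 2) (k + 2) ≤ fdiag a b j k + dfc a b j k := by
  have h0 : -fdiag a b j k ≤ dfc a b j k := le_max_right _ _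
  rcases (dfc_nonneg a b (j - 2) (k + 2)).eq_or_lt with h | h
  · rw [← h]; linarith
  · obtain ⟨-, h1⟩ := bad_range hab h
    have h2 := dfc_le_quarter a b (j - 2) (k + 2)
    have h3 := dfc_nonneg a b j k
    have ha : 0 ≤ a := hb.trans hab
    have h4 : (a - b) ^ 2 ≤ fdiag a b j k := by
      unfold fdiag
      have e1 : a - b ≤ a * (j + 1) - b * (k + 1) := by nlinarith
      have e2 : a - b ≤ a * (j + 1) - b * (k + 1) + (a - b) := by linarith
      have e3 : 0 ≤ a - b := by linarith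
      calc (a - b) ^ 2 = (a - b) * (a - b) := by ring
        _ ≤ _ := mul_le_mul e1 e2 e3 (by linarith)
    nlinarith

theorem amgm_aux {c u v x y z : ℝ} (hu : 0 ≤ u) (hv : 0 ≤ v) (hx : 0 ≤ x) (hy : 0 ≤ y)
    (huv : c ^ 2 ≤ u * v) (hz : z ^ 2 ≤ x * y) : 2 * c * z ≤ u * x + v * y := by
  apply le_of_sq_le_sq_of_nonneg_aux
  · positivity
  · have h1 : c ^ 2 * z ^ 2 ≤ (u * v) * (x * y) :=
      mul_le_mul huv hz (sq_nonneg _) (mul_nonneg hu hv)
    nlinarith [sq_nonneg (u * x - v * y)]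
where
  le_of_sq_le_sq_of_nonneg_aux {p q : ℝ} (hq : 0 ≤ q) (h : p ^ 2 ≤ q ^ 2) : p ≤ q :=
    (le_abs_self p).trans (abs_le_of_sq_le_sq' h hq |> fun h => abs_le.mpr h)

/-- Weight for the first square. -/
noncomputable def wU (a b J K : ℝ) : ℝ :=
  a ^ 2 - (a * b * (J - 1) * K - dfc a b (J - 2) K) / (J * (J - 1))

/-- Weight for the second square. -/
noncomputable def wV (a b J K : ℝ) : ℝ :=
  b ^ 2 - (a * b * J * (K - 1) + 3 * dfc a b (J - 2) K) / (K * (K - 1))

theorem pointwise {a b : ℝ} (hb : 0 ≤ b) (hab : b ≤ a) (J K : ℕ) (p r : ℂ)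
    (hp : p ≠ 0 → 2 ≤ J) (hr : r ≠ 0 → 2 ≤ K) :
    wU a b J K * Complex.normSq p + wV a b J K * Complex.normSq r ≤
      Complex.normSq ((a : ℂ) * p - (b : ℂ) * r) := by
  have ha : 0 ≤ a := hb.trans hab
  have hexp : Complex.normSq ((a : ℂ) * p - (b : ℂ) * r) =
      a ^ 2 * Complex.normSq p + b ^ 2 * Complex.normSq r
        - 2 * (a * b) * (p.re * r.re + p.im * r.im) := by
    simp only [Complex.normSq_apply, Complex.sub_re, Complex.sub_im, Complex.mul_re,
      Complex.mul_im, Complex.ofReal_re, Complex.ofReal_im]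
    ring
  have hU : 2 ≤ J → 0 ≤ (a * b * ((J : ℝ) - 1) * K - dfc a b ((J : ℝ) - 2) K) /
      ((J : ℝ) * ((J : ℝ) - 1)) := by
    intro hJ
    have hJ' : (2 : ℝ) ≤ J := by exact_mod_cast hJ
    have h1 := four_dfc_le (j := (J : ℝ) - 2) (k := K) hb hab (by linarith) (by positivity)
    have h2 := dfc_nonneg a b ((J : ℝ) - 2) K
    apply div_nonneg
    · have : ((J : ℝ) - 2 + 1) = J - 1 := by ring
      rw [this] at h1
      linarith
    · apply mul_nonneg <;> linarith
  have hV : 2 ≤ K → 0 ≤ (a * b * (J : ℝ) * ((K : ℝ) - 1) + 3 * dfc a b ((J : ℝ) - 2) K) /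
      ((K : ℝ) * ((K : ℝ) - 1)) := by
    intro hK
    have hK' : (2 : ℝ) ≤ K := by exact_mod_cast hK
    have h2 := dfc_nonneg a b ((J : ℝ) - 2) K
    have h3 : (0 : ℝ) ≤ (K : ℝ) - 1 := by linarith
    positivity
  rw [hexp]
  unfold wU wV
  by_cases hp0 : p = 0
  · by_cases hr0 : r = 0
    · simp [hp0, hr0]
    · have := mul_nonneg (hV (hr hr0)) (Complex.normSq_nonneg r)
      simp only [hp0, map_zero, Complex.zero_re, Complex.zero_im]
      nlinarith
  · by_cases hr0 : r = 0
    · have := mul_nonneg (hU (hp hp0)) (Complex.normSq_nonneg p)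
      simp only [hr0, map_zero, Complex.zero_re, Complex.zero_im]
      nlinarith
    · have hJ := hp hp0
      have hK := hr hr0
      have hJ' : (2 : ℝ) ≤ J := by exact_mod_cast hJ
      have hK' : (2 : ℝ) ≤ K := by exact_mod_cast hK
      have key := amgm_aux (c := a * b) (z := p.re * r.re + p.im * r.im) (hU hJ) (hV hK)
        (Complex.normSq_nonneg p) (Complex.normSq_nonneg r) ?_ ?_
      · nlinarith
      · have h1 := prod_cond (j := (J : ℝ) - 2) (k := K) hb hab (by linarith) (by positivity)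
        have e1 : ((J : ℝ) - 2 + 1) = J - 1 := by ring
        have e2 : ((J : ℝ) - 2 + 2) = J := by ring
        rw [e1, e2] at h1
        have hJ0 : 0 < (J : ℝ) * ((J : ℝ) - 1) := by apply mul_pos <;> linarith
        have hK0 : 0 < (K : ℝ) * ((K : ℝ) - 1) := by apply mul_pos <;> linarith
        rw [div_mul_div_comm, le_div_iff₀ (mul_pos hJ0 hK0)]
        calc _ = (a * b * ((J : ℝ) - 1) * K) * (a * b * J * ((K : ℝ) - 1)) := by ring
          _ ≤ _ := h1
      · simp only [Complex.normSq_apply]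
        nlinarith [sq_nonneg (p.re * r.im - p.im * r.re)]

variable {σ : Type*} [Fintype σ] [DecidableEq σ]

/-- Weighted sum of the squared coefficients. -/
noncomputable def wsum (w : (σ →₀ ℕ) → ℝ) (P : MvPolynomial σ ℂ) : ℝ :=
  ∑ α ∈ P.support, w α * Complex.normSq (coeff α P)

theorem wsum_eq_sum (w : (σ →₀ ℕ) → ℝ) {P : MvPolynomial σ ℂ} {s : Finset (σ →₀ ℕ)}
    (h : P.support ⊆ s) : wsum w P = ∑ α ∈ s, w α * Complex.normSq (coeff α P) := by
  unfold wsum
  refine Finset.sum_subset h fun α _ hα => ?_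
  rw [notMem_support_iff.mp hα]; simp

theorem wsum_X_mul (w : (σ →₀ ℕ) → ℝ) (i : σ) (P : MvPolynomial σ ℂ) :
    wsum w (X i * P) = wsum (fun α => w (Finsupp.single i 1 + α)) P := by
  unfold wsum
  rw [support_X_mul, Finset.sum_map]
  refine Finset.sum_congr rfl fun α _ => ?_
  simp only [addLeftEmbedding_apply, coeff_X_mul]

theorem ip_self (P : MvPolynomial σ ℂ) : ip P P = (wsum fw P : ℂ) := by
  unfold ip wsum
  push_cast
  refine Finset.sum_congr rfl fun α _ => ?_
  rw [Complex.normSq_eq_conj_mul_self]; ring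

theorem two_le_of_coeff (i : σ) (Q : MvPolynomial σ ℂ) (γ : σ →₀ ℕ)
    (h : coeff γ (X i * (X i * Q)) ≠ 0) : 2 ≤ γ i := by
  have h' : γ ∈ (X i * (X i * Q)).support := mem_support_iff.mpr h
  rw [support_X_mul, support_X_mul] at h'
  simp only [mem_map, addLeftEmbedding_apply] at h'
  obtain ⟨_, ⟨α, -, rfl⟩, rfl⟩ := h'
  simp only [Finsupp.add_apply, Finsupp.single_eq_same]
  omega

theorem hardy {a b : ℝ} (hb : 0 ≤ b) (hab : b ≤ a) (x y : σ) (hxy : x ≠ y)
    (Q : MvPolynomial σ ℂ) :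
    2 * (a * b) * (wsum fw (X x * Q) + wsum fw (X y * Q)) ≤
      wsum fw (C (a : ℂ) * (X x * (X x * Q)) - C (b : ℂ) * (X y * (X y * Q))) := by
  set P1 := X x * (X x * Q) with hP1
  set P2 := X y * (X y * Q) with hP2
  have step1 : wsum (fun γ => fw γ * wU a b (γ x) (γ y)) P1
      + wsum (fun γ => fw γ * wV a b (γ x) (γ y)) P2
      ≤ wsum fw (C (a : ℂ) * P1 - C (b : ℂ) * P2) := by
    have hs : (C (a : ℂ) * P1 - C (b : ℂ) * P2).support ⊆ P1.support ∪ P2.support := by
      intro γ hγ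
      rw [mem_support_iff, coeff_sub, coeff_C_mul, coeff_C_mul] at hγ
      rw [mem_union, mem_support_iff, mem_support_iff]
      by_contra hc
      push Not at hc
      simp [hc.1, hc.2] at hγ
    rw [wsum_eq_sum _ hs, wsum_eq_sum _ (subset_union_left (s₁ := P1.support) (s₂ := P2.support)),
      wsum_eq_sum _ (subset_union_right (s₁ := P1.support) (s₂ := P2.support)),
      ← Finset.sum_add_distrib]
    refine Finset.sum_le_sum fun γ _ => ?_
    rw [coeff_sub, coeff_C_mul, coeff_C_mul]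
    have := pointwise hb hab (γ x) (γ y) (coeff γ P1) (coeff γ P2)
      (two_le_of_coeff x Q γ) (two_le_of_coeff y Q γ)
    have := mul_le_mul_of_nonneg_left this (fw_nonneg γ)
    linarith
  refine le_trans ?_ step1
  rw [hP1, hP2]
  simp only [wsum_X_mul]
  unfold wsum
  rw [← Finset.sum_add_distrib, ← Finset.sum_add_distrib, Finset.mul_sum]
  refine Finset.sum_le_sum fun α _ => ?_
  simp only [fw_single_add, Finsupp.add_apply, Finsupp.single_eq_same,
    Finsupp.single_eq_of_ne hxy, Finsupp.single_eq_of_ne hxy.symm, zero_add]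
  push_cast
  set j : ℝ := (α x : ℝ) with hj
  set k : ℝ := (α y : ℝ) with hk
  have hj0 : 0 ≤ j := by positivity
  have hk0 : 0 ≤ k := by positivity
  have hN := mul_nonneg (fw_nonneg α) (Complex.normSq_nonneg (coeff α Q))
  have hd := diag_cond (j := j) (k := k) hb hab
  have eU : (1 + j + 1) * (j + 1) * wU a b (1 + (1 + j)) k
      = (j + 1) * (j + 2) * a ^ 2 - (a * b * (j + 1) * k - dfc a b j k) := by
    unfold wU
    have e1 : (1 + (1 + j) - 2) = j := by ring
    have e2 : (1 + (1 + j) - 1) = j + 1 := by ring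
    rw [e1, e2]
    field_simp
    ring
  have eV : (1 + k + 1) * (k + 1) * wV a b j (1 + (1 + k))
      = (k + 1) * (k + 2) * b ^ 2 - (a * b * j * (k + 1) + 3 * dfc a b (j - 2) (k + 2)) := by
    unfold wV
    have e1 : (1 + (1 + k)) = k + 2 := by ring
    have e2 : (k + 2 - 1) = k + 1 := by ring
    rw [e1, e2]
    field_simp
    ring
  have key : 2 * (a * b) * ((j + 1) + (k + 1)) ≤
      (1 + j + 1) * (j + 1) * wU a b (1 + (1 + j)) k
        + (1 + k + 1) * (k + 1) * wV a b j (1 + (1 + k)) := by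
    rw [eU, eV]
    unfold fdiag at hd
    nlinarith
  have := mul_le_mul_of_nonneg_left key hN
  nlinarith

end Pool.Agent.MP_7742c6_al.H40
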