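import Pool.Agent.MP_7742c6_al.H40.Hardy

/-! Reduction of the permanental inequality to the Hardy type inequality. -/

set_option autoImplicit false
set_option linter.unusedSectionVars false

namespace Pool.Agent.MP_7742c6_al.H40

open MvPolynomial Finset
open scoped ComplexConjugate InnerProductSpace ComplexOrder MatrixOrder

section Poly

variable {σ : Type*} [Fintype σ] [DecidableEq σ]

theorem ip_sub_left (P P' R : MvPolynomial σ ℂ) : ip (P - P') R = ip P R - ip P' R := by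
  have := ip_add_left (P - P') P' R
  rw [sub_add_cancel] at this
  rw [this]; ring

theorem ip_sub_right (P R R' : MvPolynomial σ ℂ) : ip P (R - R') = ip P R - ip P R' := by
  have := ip_add_right P (R - R') R'
  rw [sub_add_cancel] at this
  rw [this]; ring

theorem poly_ineq (x y : σ) (hxy : x ≠ y) (Q : MvPolynomial σ ℂ) (l m : ℂ) (c s : ℝ)
    (hs : 0 ≤ s) (hcs : s ≤ c) (l0 l1 : MvPolynomial σ ℂ)
    (h0 : l0 = C l * (C (c : ℂ) * X x + C (s : ℂ) * X y))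
    (h1 : l1 = C m * (C (c : ℂ) * X x - C (s : ℂ) * X y)) :
    (conj l * l * (c ^ 2 + s ^ 2) * ip (l1 * Q) (l1 * Q)
      - conj l * m * (c ^ 2 - s ^ 2) * ip (l1 * Q) (l0 * Q)
      - conj m * l * (c ^ 2 - s ^ 2) * ip (l0 * Q) (l1 * Q)
      + conj m * m * (c ^ 2 + s ^ 2) * ip (l0 * Q) (l0 * Q)).re
      ≤ 2 * (ip (l0 * (l1 * Q)) (l0 * (l1 * Q))).re := by
  have e0 : l0 * Q = C l * (C (c : ℂ) * (X x * Q) + C (s : ℂ) * (X y * Q)) := by rw [h0]; ring
  have e1 : l1 * Q = C m * (C (c : ℂ) * (X x * Q) - C (s : ℂ) * (X y * Q)) := by rw [h1]; ring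
  have e2 : l0 * (l1 * Q) = C (l * m) * (C ((c ^ 2 : ℝ) : ℂ) * (X x * (X x * Q))
      - C ((s ^ 2 : ℝ) : ℂ) * (X y * (X y * Q))) := by
    rw [h0, h1]; push_cast; simp only [map_mul, map_pow]; ring
  have hL : conj l * l * (c ^ 2 + s ^ 2) * ip (l1 * Q) (l1 * Q)
      - conj l * m * (c ^ 2 - s ^ 2) * ip (l1 * Q) (l0 * Q)
      - conj m * l * (c ^ 2 - s ^ 2) * ip (l0 * Q) (l1 * Q)
      + conj m * m * (c ^ 2 + s ^ 2) * ip (l0 * Q) (l0 * Q)
      = ((Complex.normSq (l * m) * (4 * (c ^ 2 * s ^ 2) *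
          (wsum fw (X x * Q) + wsum fw (X y * Q))) : ℝ) : ℂ) := by
    rw [e0, e1]
    simp only [ip_C_mul_left, ip_C_mul_right, ip_add_left, ip_add_right, ip_sub_left,
      ip_sub_right, Complex.conj_ofReal]
    rw [ip_self, ip_self]
    push_cast
    rw [Complex.normSq_eq_conj_mul_self, map_mul]
    ring
  have hR : ip (l0 * (l1 * Q)) (l0 * (l1 * Q)) = ((Complex.normSq (l * m) *
      wsum fw (C ((c ^ 2 : ℝ) : ℂ) * (X x * (X x * Q))
        - C ((s ^ 2 : ℝ) : ℂ) * (X y * (X y * Q))) : ℝ) : ℂ) := by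
    rw [e2, ip_C_mul_left, ip_C_mul_right, ip_self, Complex.ofReal_mul,
      Complex.normSq_eq_conj_mul_self]
    ring
  rw [hL, hR, Complex.ofReal_re, Complex.ofReal_re]
  have hh := hardy (a := c ^ 2) (b := s ^ 2) (by positivity) (by nlinarith) x y hxy Q
  have := mul_le_mul_of_nonneg_left hh (Complex.normSq_nonneg (l * m))
  nlinarith

end Poly

section Frame

variable {E : Type*} [NormedAddCommGroup E] [InnerProductSpace ℂ E]

theorem exists_unit (e : E) (he : ‖e‖ = 1) (p : E) : ∃ (l : ℂ) (u : E), ‖u‖ = 1 ∧ p = l • u := by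
  by_cases hp : p = 0
  · exact ⟨0, e, he, by simp [hp]⟩
  · have : (‖p‖ : ℂ) ≠ 0 := by exact_mod_cast norm_ne_zero_iff.mpr hp
    refine ⟨‖p‖, (‖p‖ : ℂ)⁻¹ • p, ?_, ?_⟩
    · rw [norm_smul, norm_inv, Complex.norm_real, norm_norm,
        inv_mul_cancel₀ (norm_ne_zero_iff.mpr hp)]
    · rw [smul_smul, mul_inv_cancel₀ this, one_smul]

theorem exists_normalize (p : E) :
    ∃ u : E, p = (‖p‖ : ℂ) • u ∧ (∀ w, ⟪u, w⟫_ℂ * ⟪u, u⟫_ℂ = ⟪u, w⟫_ℂ) ∧
      (‖p‖ : ℂ) * ⟪u, u⟫_ℂ = ‖p‖ ∧ ∃ t : ℂ, u = t • p := by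
  by_cases hp : p = 0
  · exact ⟨0, by simp [hp], by simp, by simp [hp], 0, by simp⟩
  · have h : (‖p‖ : ℂ) ≠ 0 := by exact_mod_cast norm_ne_zero_iff.mpr hp
    have hn : ‖(‖p‖ : ℂ)⁻¹ • p‖ = 1 := by
      rw [norm_smul, norm_inv, Complex.norm_real, norm_norm,
        inv_mul_cancel₀ (norm_ne_zero_iff.mpr hp)]
    have hi : ⟪(‖p‖ : ℂ)⁻¹ • p, (‖p‖ : ℂ)⁻¹ • p⟫_ℂ = 1 := by
      rw [inner_self_eq_norm_sq_to_K, hn]; simp
    refine ⟨(‖p‖ : ℂ)⁻¹ • p, ?_, ?_, ?_, _, rfl⟩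
    · rw [smul_smul, mul_inv_cancel₀ h, one_smul]
    · intro w; rw [hi, mul_one]
    · rw [hi, mul_one]

theorem exists_frame (e : E) (he : ‖e‖ = 1) (p q : E) :
    ∃ (x y : E) (l m : ℂ) (c s : ℝ), 0 ≤ s ∧ s ≤ c ∧ ⟪x, y⟫_ℂ = 0 ∧
      (∀ w, ⟪x, w⟫_ℂ * ⟪x, x⟫_ℂ = ⟪x, w⟫_ℂ) ∧ (∀ w, ⟪y, w⟫_ℂ * ⟪y, y⟫_ℂ = ⟪y, w⟫_ℂ) ∧
      (c : ℂ) * ⟪x, x⟫_ℂ = c ∧ (s : ℂ) * ⟪y, y⟫_ℂ = s ∧
      p = l • ((c : ℂ) • x + (s : ℂ) • y) ∧ q = m • ((c : ℂ) • x - (s : ℂ) • y) := by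
  obtain ⟨l, u, hu, hp⟩ := exists_unit e he p
  obtain ⟨m, v, hv, hq⟩ := exists_unit e he q
  obtain ⟨ω, hω, hz⟩ := Complex.exists_norm_eq_mul_self ⟪u, v⟫_ℂ
  have hω0 : ω ≠ 0 := by rintro rfl; simp at hω
  set v' := ω • v with hv'
  have hv'n : ‖v'‖ = 1 := by rw [hv', norm_smul, hω, hv, one_mul]
  have huv : ⟪u, v'⟫_ℂ = (‖⟪u, v⟫_ℂ‖ : ℂ) := by rw [hv', inner_smul_right, ← hz]
  have hvu : ⟪v', u⟫_ℂ = (‖⟪u, v⟫_ℂ‖ : ℂ) := by
    rw [← inner_conj_symm, huv, Complex.conj_ofReal]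
  have huu : ⟪u, u⟫_ℂ = 1 := by rw [inner_self_eq_norm_sq_to_K, hu]; simp
  have hvv : ⟪v', v'⟫_ℂ = 1 := by rw [inner_self_eq_norm_sq_to_K, hv'n]; simp
  obtain ⟨x, hx1, hx2, hx3, tx, hx4⟩ := exists_normalize (u + v')
  obtain ⟨y, hy1, hy2, hy3, ty, hy4⟩ := exists_normalize (u - v')
  have horth : ⟪u + v', u - v'⟫_ℂ = 0 := by
    rw [inner_add_left, inner_sub_right, inner_sub_right, huu, hvv, huv, hvu]; ring
  refine ⟨x, y, l / 2, m / (2 * ω), ‖u + v'‖, ‖u - v'‖, norm_nonneg _, ?_, ?_, hx2, hy2, hx3, hy3,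
    ?_, ?_⟩
  · have h1 := norm_add_sq (𝕜 := ℂ) u v'
    have h2 := norm_sub_sq (𝕜 := ℂ) u v'
    rw [huv] at h1 h2
    have h3 : RCLike.re ((‖⟪u, v⟫_ℂ‖ : ℝ) : ℂ) = ‖⟪u, v⟫_ℂ‖ := Complex.ofReal_re _
    rw [h3] at h1 h2
    have h4 := norm_nonneg ⟪u, v⟫_ℂ
    exact abs_le_abs_aux (norm_nonneg _) (by nlinarith)
  · rw [hx4, hy4, inner_smul_left, inner_smul_right, horth]; simp
  · rw [← hx1, ← hy1, hp]
    have : u + v' + (u - v') = (2 : ℂ) • u := by rw [two_smul]; abel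
    rw [this, smul_smul]; congr 1; ring
  · rw [← hx1, ← hy1, hq]
    have : u + v' - (u - v') = (2 : ℂ) • v' := by rw [two_smul]; abel
    rw [this, hv', smul_smul, smul_smul]; congr 1; field_simp
where
  abs_le_abs_aux {a b : ℝ} (hb : 0 ≤ b) (h : a ^ 2 ≤ b ^ 2) : a ≤ b :=
    (le_abs_self a).trans (abs_le.mpr (abs_le_of_sq_le_sq' h hb))

end Frame

theorem exists_coords {n : ℕ} (A : Matrix (Fin (n + 2)) (Fin (n + 2)) ℂ) (hA : A.PosSemidef) :
    ∃ (V : Fin (n + 2) → Option (Option (Fin (n + 2))) → ℂ) (l m : ℂ) (c s : ℝ),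
      0 ≤ s ∧ s ≤ c ∧ (∀ i j, A i j = dot (V i) (V j)) ∧
      V 0 none = l * c ∧ V 0 (some none) = l * s ∧ (∀ k, V 0 (some (some k)) = 0) ∧
      V 1 none = m * c ∧ V 1 (some none) = -(m * s) ∧ (∀ k, V 1 (some (some k)) = 0) := by
  obtain ⟨B, hB⟩ := CStarAlgebra.nonneg_iff_eq_star_mul_self.mp hA.nonneg
  let b : Fin (n + 2) → EuclideanSpace ℂ (Fin (n + 2)) := fun i => WithLp.toLp 2 (fun k => B k i)
  have hb : ∀ i j, A i j = ⟪b i, b j⟫_ℂ := by
    intro i j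
    rw [hB, Matrix.mul_apply, PiLp.inner_apply]
    refine Finset.sum_congr rfl fun k _ => ?_
    simp [b, mul_comm]
  obtain ⟨x, y, l, m, c, s, hs, hcs, hxy, hx, hy, hcx, hsy, hp, hq⟩ :=
    exists_frame (EuclideanSpace.single (0 : Fin (n + 2)) (1 : ℂ)) (by simp) (b 0) (b 1)
  have hyx : ⟪y, x⟫_ℂ = 0 := by rw [← inner_conj_symm, hxy, map_zero]
  let r : Fin (n + 2) → EuclideanSpace ℂ (Fin (n + 2)) :=
    fun i => b i - ⟪x, b i⟫_ℂ • x - ⟪y, b i⟫_ℂ • y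
  have hx0 : ⟪x, b 0⟫_ℂ = l * c := by
    rw [hp, inner_smul_right, inner_add_right, inner_smul_right, inner_smul_right, hcx, hxy]; ring
  have hy0 : ⟪y, b 0⟫_ℂ = l * s := by
    rw [hp, inner_smul_right, inner_add_right, inner_smul_right, inner_smul_right, hsy, hyx]; ring
  have hx1 : ⟪x, b 1⟫_ℂ = m * c := by
    rw [hq, inner_smul_right, inner_sub_right, inner_smul_right, inner_smul_right, hcx, hxy]; ring
  have hy1 : ⟪y, b 1⟫_ℂ = -(m * s) := by
    rw [hq, inner_smul_right, inner_sub_right, inner_smul_right, inner_smul_right, hsy, hyx]; ring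
  have hr0 : r 0 = 0 := by
    simp only [r]
    rw [hx0, hy0, hp]
    module
  have hr1 : r 1 = 0 := by
    simp only [r]
    rw [hx1, hy1, hq]
    module
  refine ⟨fun i o => o.elim ⟪x, b i⟫_ℂ (fun o' => o'.elim ⟪y, b i⟫_ℂ (fun k => r i k)),
    l, m, c, s, hs, hcs, ?_, hx0, hy0, ?_, hx1, hy1, ?_⟩
  · intro i j
    unfold dot
    rw [Fintype.sum_option, Fintype.sum_option]
    simp only [Option.elim]
    have h1 : ∑ k, conj (r i k) * r j k = ⟪r i, r j⟫_ℂ := by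
      rw [PiLp.inner_apply]
      refine Finset.sum_congr rfl fun k _ => ?_
      simp [mul_comm]
    rw [h1, hb]
    simp only [r, inner_sub_left, inner_sub_right, inner_smul_left, inner_smul_right, hxy, hyx]
    rw [← inner_conj_symm (b i) x, ← inner_conj_symm (b i) y]
    linear_combination (-conj ⟪x, b i⟫_ℂ) * hx (b j) + (-conj ⟪y, b i⟫_ℂ) * hy (b j)
  · intro k; simp [hr0]
  · intro k; simp [hr1]

theorem pate (n : ℕ) (A : Matrix (Fin (n+2)) (Fin (n+2)) ℂ) (hA : A.PosSemidef) :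
      (A 0 0 * (A.submatrix (Fin.succAbove (0 : Fin (n+2))) (Fin.succAbove (0 : Fin (n+2)))).permanent
        - A 0 1 * (A.submatrix (Fin.succAbove (0 : Fin (n+2))) (Fin.succAbove (1 : Fin (n+2)))).permanent
        - A 1 0 * (A.submatrix (Fin.succAbove (1 : Fin (n+2))) (Fin.succAbove (0 : Fin (n+2)))).permanent
        + A 1 1 * (A.submatrix (Fin.succAbove (1 : Fin (n+2))) (Fin.succAbove (1 : Fin (n+2)))).permanent).re
      ≤ 2 * (A.permanent).re := by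
  obtain ⟨V, l, m, c, s, hs, hcs, hV, h1, h2, h3, h4, h5, h6⟩ := exists_coords A hA
  have hsub : ∀ i j : Fin (n + 2), (A.submatrix i.succAbove j.succAbove).permanent =
      ip (∏ k, lin (V (i.succAbove k))) (∏ k, lin (V (j.succAbove k))) := by
    intro i j
    rw [← permanent_gram]
    congr 1
    ext a b
    simp [hV]
  have hfull : A.permanent = ip (∏ k, lin (V k)) (∏ k, lin (V k)) := by
    rw [← permanent_gram]
    congr 1
    ext a b
    simp [hV]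
  set Q := ∏ k : Fin n, lin (V k.succ.succ) with hQ
  have p0 : ∏ k, lin (V ((0 : Fin (n + 2)).succAbove k)) = lin (V 1) * Q := by
    rw [Fin.prod_univ_succ]; simp [hQ]
  have p1 : ∏ k, lin (V ((1 : Fin (n + 2)).succAbove k)) = lin (V 0) * Q := by
    rw [Fin.prod_univ_succ]; simp [hQ]
  have p2 : ∏ k, lin (V k) = lin (V 0) * (lin (V 1) * Q) := by
    rw [Fin.prod_univ_succ, Fin.prod_univ_succ]; simp [hQ]
  have l0 : lin (V 0) = C l * (C (c : ℂ) * X none + C (s : ℂ) * X (some none)) := by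
    unfold lin
    rw [Fintype.sum_option, Fintype.sum_option]
    simp only [h1, h2, h3, map_mul, map_zero, zero_mul, Finset.sum_const_zero]
    ring
  have l1 : lin (V 1) = C m * (C (c : ℂ) * X none - C (s : ℂ) * X (some none)) := by
    unfold lin
    rw [Fintype.sum_option, Fintype.sum_option]
    simp only [h4, h5, h6, map_mul, map_neg, map_zero, zero_mul, Finset.sum_const_zero]
    ring
  have a00 : A 0 0 = conj l * l * (c ^ 2 + s ^ 2) := by
    rw [hV]; unfold dot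
    rw [Fintype.sum_option, Fintype.sum_option]
    simp only [h1, h2, h3, map_mul, Complex.conj_ofReal, mul_zero, Finset.sum_const_zero]
    ring
  have a01 : A 0 1 = conj l * m * (c ^ 2 - s ^ 2) := by
    rw [hV]; unfold dot
    rw [Fintype.sum_option, Fintype.sum_option]
    simp only [h1, h2, h4, h5, h6, map_mul, Complex.conj_ofReal, mul_zero, Finset.sum_const_zero]
    ring
  have a10 : A 1 0 = conj m * l * (c ^ 2 - s ^ 2) := by
    rw [hV]; unfold dot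
    rw [Fintype.sum_option, Fintype.sum_option]
    simp only [h1, h2, h3, h4, h5, map_mul, map_neg, Complex.conj_ofReal, mul_zero,
      Finset.sum_const_zero]
    ring
  have a11 : A 1 1 = conj m * m * (c ^ 2 + s ^ 2) := by
    rw [hV]; unfold dot
    rw [Fintype.sum_option, Fintype.sum_option]
    simp only [h4, h5, h6, map_mul, map_neg, Complex.conj_ofReal, mul_zero, Finset.sum_const_zero]
    ring
  rw [hsub, hsub, hsub, hsub, hfull, p0, p1, p2, a00, a01, a10, a11]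
  exact poly_ineq none (some none) (by simp) Q l m c s hs hcs _ _ l0 l1

end Pool.Agent.MP_7742c6_al.H40
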